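import Pool.Agent.Lib.MP_ca9be0_an.FinC

namespace Pool.Agent.Results.MP_ca9be0_an.Finite

open Pool.Agent.Lib.MP_ca9be0_an

/-- The Pythagoras number of `C^{k,α}(ℝ^n)` is finite for all `k`, `n`, `α`, with an explicit bound
that does not depend on `α`. -/
theorem result (k n : ℕ) (α : ℝ) (h0 : 0 < α) (h1 : α ≤ 1) :
    pyth k n α ≤ ((4 * (4 * n + 5) ^ n * ((n + k / 2).choose (k / 2)) ^ 2 : ℕ) : ℕ∞) := by
  refine sInf_le ⟨_, ?_, rfl⟩
  rintro f - ⟨M, g, hg, hf⟩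
  refine ⟨_, le_rfl, ?_⟩
  unfold SumSq
  unfold InHalf at hg ⊢
  by_cases hk : Even k
  · simp only [hk, if_true] at hg ⊢
    obtain ⟨g', h2, h3⟩ := PyF.sumsq_bound (by linarith) (by linarith) g hg
    exact ⟨g', h2, fun x => (hf x).trans (h3 x)⟩
  · have h4 : (k - 1) / 2 = k / 2 := by
      rw [Nat.not_even_iff] at hk; omega
    simp only [hk, if_false, h4] at hg ⊢
    obtain ⟨g', h2, h3⟩ := PyF.sumsq_bound (by linarith) (by linarith) g hg
    exact ⟨g', h2, fun x => (hf x).trans (h3 x)⟩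

end Pool.Agent.Results.MP_ca9be0_an.Finite
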