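import Pool.Agent.Lib.MP_ca9be0_an.FinL

namespace Pool.Agent.Results.MP_ca9be0_an.Lower

open Pool.Agent.Lib.MP_ca9be0_an

/-- `p_{k,n}` is at least the Pythagoras number of sums of squares of real polynomials of degree at
most `k / 2` in `n` variables (equivalently of forms of degree `k / 2` in `n + 1` variables). -/
theorem result (k n m : ℕ) (α : ℝ) (hn : 1 ≤ n) (h0 : 0 < α) (h1 : α ≤ 1)
    (hm : pyth k n α ≤ (m : ℕ∞)) (M : ℕ) (q : Fin M → MvPolynomial (Fin n) ℝ)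
    (hq : ∀ i, (q i).totalDegree ≤ k / 2) :
    ∃ p : Fin m → MvPolynomial (Fin n) ℝ, (∀ j, (p j).totalDegree ≤ k / 2) ∧
      ∑ i, q i ^ 2 = ∑ j, p j ^ 2 := by
  have h2 : ∀ f : EuclideanSpace ℝ (Fin n) → ℝ, InC k α f → (∃ M, SumSq k α M f) →
      ∃ m' ≤ m, SumSq k α m' f := by
    have h3 : pyth k n α < ((m + 1 : ℕ) : ℕ∞) := hm.trans_lt (by exact_mod_cast m.lt_succ_self)
    obtain ⟨_, ⟨a, ha, rfl⟩, h4⟩ := sInf_lt_iff.1 h3
    intro f hf hs
    obtain ⟨m', h5, h6⟩ := ha f hf hs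
    have h7 : a < m + 1 := by beta_reduce at h4; exact_mod_cast h4
    exact ⟨m', by omega, h6⟩
  unfold SumSq InHalf at h2
  by_cases hk : Even k
  · simp only [hk, if_true] at h2
    exact PyF.lower_core hn h0 h1 (by linarith) (by linarith)
      (fun G h3 h4 => h2 _ h4 ⟨M, G, h3, fun _ => rfl⟩) q hq
  · have h4 : (k - 1) / 2 = k / 2 := by
      rw [Nat.not_even_iff] at hk; omega
    simp only [hk, if_false, h4] at h2
    exact PyF.lower_core hn h0 h1 (by linarith) (by linarith)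
      (fun G h3 h4 => h2 _ h4 ⟨M, G, h3, fun _ => rfl⟩) q hq

end Pool.Agent.Results.MP_ca9be0_an.Lower
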