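import Pool.Agent.Lib.MP_ca9be0_an.FinO

namespace Pool.Agent.Results.MP_ca9be0_an.Step

open Pool.Agent.Lib.MP_ca9be0_an

/-- One more variable raises the Pythagoras number of `C^{k,α}` by at least `k / 2`. -/
theorem result (k n : ℕ) (α : ℝ) (hn : 1 ≤ n) (h0 : 0 < α) (h1 : α ≤ 1) :
    pyth k n α + ((k / 2 : ℕ) : ℕ∞) ≤ pyth k (n + 1) α := by
  obtain ⟨β, b0, b1, hs, hβ⟩ : ∃ β : ℝ, 0 < β ∧ β ≤ 1 ∧ k + α = 2 * ((k / 2 : ℕ) + β) ∧
      ∀ (N : ℕ) (g : EuclideanSpace ℝ (Fin N) → ℝ), InHalf k α g ↔ InC (k / 2) β g := by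
    rcases Nat.even_or_odd' k with ⟨j, rfl | rfl⟩
    · refine ⟨α / 2, by linarith, by linarith, ?_, fun N g => by simp [InHalf]⟩
      rw [show 2 * j / 2 = j by omega]; push_cast; ring
    · have e : (2 * j + 1) / 2 = j := by omega
      refine ⟨(1 + α) / 2, by linarith, by linarith, ?_, fun N g => by simp [InHalf, e]⟩
      rw [e]; push_cast; ring
  refine le_sInf ?_
  rintro _ ⟨m, hm, rfl⟩
  have key : ∀ (M : ℕ) (G : Fin M → EuclideanSpace ℝ (Fin n) → ℝ), (∀ i, InC (k / 2) β (G i)) →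
      (InC k α fun x => ∑ i, G i x ^ 2) → k / 2 ≤ m ∧
      ∃ g : Fin (m - k / 2) → EuclideanSpace ℝ (Fin n) → ℝ, (∀ j, InC (k / 2) β (g j)) ∧
        ∀ x, ∑ i, G i x ^ 2 = ∑ j, g j x ^ 2 := fun M G hG hf => by
    refine PyF.rec_core ⟨0, hn⟩ h0 h1 b0 b1 hs (by omega) (fun G h2 h3 => ?_) G hG hf
    obtain ⟨m', h4, g, h5, h6⟩ := hm _ h3 ⟨_, fun i => G (finSumFinEquiv.symm i),
      fun i => (hβ _ _).2 (h2 _), fun x => (Equiv.sum_comp finSumFinEquiv.symm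
        fun v => G v x ^ 2).symm⟩
    obtain ⟨e, rfl⟩ := Nat.exists_eq_add_of_le h4
    refine ⟨Fin.append g fun _ _ => 0, fun j => Fin.addCases (fun j => ?_) (fun j => ?_) j,
      fun y => by simpa [Fin.sum_univ_add] using h6 y⟩
    · simpa using (hβ _ _).1 (h5 j)
    · simpa using (PyF.Cf.poly (PyF.const_mem _ 0) le_rfl).inC b0 le_rfl
  have hd := (key 0 Fin.elim0 (fun i => i.elim0)
    (by simpa using (PyF.Cf.poly (PyF.const_mem _ 0) le_rfl).inC h0 le_rfl)).1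
  have h2 : pyth k n α ≤ ((m - k / 2 : ℕ) : ℕ∞) := by
    refine sInf_le ⟨_, ?_, rfl⟩
    rintro f hf ⟨M, G, hG, hG'⟩
    obtain rfl : f = fun x => ∑ i, G i x ^ 2 := funext hG'
    obtain ⟨-, g, h3, h4⟩ := key M G (fun i => (hβ _ _).1 (hG i)) hf
    exact ⟨_, le_rfl, g, fun j => (hβ _ _).2 (h3 j), h4⟩
  refine (add_le_add_left h2 _).trans (le_of_eq ?_)
  beta_reduce
  exact_mod_cast Nat.sub_add_cancel hd

end Pool.Agent.Results.MP_ca9be0_an.Step
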